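import Mathlib
import Pool.Agent.H474R2.PG.Defs

/-!
# Products of consecutive values of a polynomial; the divisor of a product with large exponents
-/

set_option autoImplicit false

open Finset Polynomial
open Pool.Agent.H474R2.PG (rho)

namespace Run7.h145.PD

/-! ### the values of a polynomial -/

lemma dvd_eval_congr (f : ℤ[X]) (p : ℕ) {x y : ℤ} (h : (p : ℤ) ∣ x - y) :
    (p : ℤ) ∣ f.eval x ↔ (p : ℤ) ∣ f.eval y := by
  have h1 : (p : ℤ) ∣ f.eval x - f.eval y := h.trans (sub_dvd_eval_sub x y f)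
  constructor
  · intro h2
    have := dvd_sub h2 h1
    simpa using this
  · intro h2
    have := dvd_add h1 h2
    simpa using this

lemma card_blocks (f : ℤ[X]) (p t m : ℕ) :
    ((Ico t (t + p * m)).filter (fun x : ℕ => (p : ℤ) ∣ f.eval (x : ℤ))).card = m * rho f p := by
  have per : Function.Periodic (fun x : ℕ => (p : ℤ) ∣ f.eval (x : ℤ)) p := by
    intro x
    simp only [eq_iff_iff]
    exact dvd_eval_congr f p (by push_cast; simp)
  have hc : p.count (fun x : ℕ => (p : ℤ) ∣ f.eval (x : ℤ)) = rho f p := by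
    rw [Nat.count_eq_card_filter_range]; rfl
  induction m with
  | zero => simp
  | succ m ih =>
    have e : Ico t (t + p * (m + 1)) = Ico t (t + p * m) ∪ Ico (t + p * m) (t + p * m + p) := by
      rw [Finset.Ico_union_Ico_eq_Ico (by omega) (by omega)]
      congr 1
      ring
    rw [e, Finset.filter_union, Finset.card_union_of_disjoint, ih,
      Nat.filter_Ico_card_eq_of_periodic _ _ _ per, hc]
    · ring
    · refine Finset.disjoint_filter_filter ?_
      exact Finset.Ico_disjoint_Ico_consecutive _ _ _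

/-- among `R` consecutive values at least `rho * (R / p)` are divisible by `p` -/
lemma count_ge (f : ℤ[X]) (p : ℕ) (hp : 0 < p) (a : ℤ) (R : ℕ) :
    rho f p * (R / p) ≤
      ((range R).filter (fun i : ℕ => (p : ℤ) ∣ f.eval (a + i + 1))).card := by
  obtain ⟨t, ht⟩ : ∃ t : ℕ, (p : ℤ) ∣ (t : ℤ) - (a + 1) := by
    refine ⟨((a + 1) % p).toNat, ?_⟩
    have h0 : 0 ≤ (a + 1) % (p : ℤ) := Int.emod_nonneg _ (by exact_mod_cast hp.ne')
    rw [Int.toNat_of_nonneg h0]
    have := Int.emod_add_mul_ediv (a + 1) p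
    exact ⟨-((a + 1) / p), by linarith⟩
  have h1 := card_blocks f p t (R / p)
  rw [mul_comm, ← h1]
  have h2 : (Ico t (t + p * (R / p))).filter (fun x : ℕ => (p : ℤ) ∣ f.eval (x : ℤ)) ⊆
      ((range R).filter (fun i : ℕ => (p : ℤ) ∣ f.eval (a + i + 1))).image (fun i => t + i) := by
    intro x hx
    rw [Finset.mem_filter, Finset.mem_Ico] at hx
    rw [Finset.mem_image]
    have h3 : p * (R / p) ≤ R := Nat.mul_div_le R p
    refine ⟨x - t, ?_, by omega⟩
    rw [Finset.mem_filter, Finset.mem_range]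
    refine ⟨by omega, ?_⟩
    refine (dvd_eval_congr f p ?_).1 hx.2
    have h4 : ((x - t : ℕ) : ℤ) = (x : ℤ) - t := by
      rw [Nat.cast_sub hx.1.1]
    rw [h4]
    have e : (x : ℤ) - (a + ((x : ℤ) - t) + 1) = t - (a + 1) := by ring
    rw [e]; exact ht
  exact (Finset.card_le_card h2).trans Finset.card_image_le

/-- the power of `p` in the product of `R` consecutive values -/
lemma pow_dvd_prod (f : ℤ[X]) (p : ℕ) (hp : 0 < p) (a : ℤ) (R : ℕ) :
    p ^ (rho f p * (R / p)) ∣ ∏ i ∈ range R, (f.eval (a + i + 1)).natAbs := by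
  refine (pow_dvd_pow p (count_ge f p hp a R)).trans ?_
  rw [← Finset.prod_const]
  refine (Finset.prod_dvd_prod_of_dvd _ (fun i => (f.eval (a + (i : ℕ) + 1)).natAbs) ?_).trans
    (Finset.prod_dvd_prod_of_subset _ _ _ (Finset.filter_subset _ _))
  intro i hi
  exact Int.natCast_dvd.1 (Finset.mem_filter.1 hi).2

lemma le_two_pow' (k : ℕ) : k + 1 ≤ 2 ^ k := Nat.lt_two_pow_self

/-- `q` consecutive values have a product divisible by `q`, if `f` has roots modulo the prime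
factors of `q` -/
lemma dvd_block (f : ℤ[X]) (q : ℕ) (hq : 0 < q) (h : ∀ p : ℕ, p.Prime → p ∣ q → 1 ≤ rho f p)
    (a : ℤ) : q ∣ ∏ i ∈ range q, (f.eval (a + i + 1)).natAbs := by
  rw [Nat.dvd_iff_prime_pow_dvd_dvd]
  intro p k hp hpk
  rcases Nat.eq_zero_or_pos k with rfl | hk
  · simp
  obtain ⟨k, rfl⟩ := Nat.exists_eq_succ_of_ne_zero hk.ne'
  have hpq : p ∣ q := (dvd_pow_self p (Nat.succ_ne_zero k)).trans hpk
  refine (pow_dvd_pow p ?_).trans (pow_dvd_prod f p hp.pos a q)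
  obtain ⟨s, hs⟩ := hpk
  have h1 : q / p = p ^ k * s := by
    rw [hs, pow_succ, mul_assoc, mul_comm p s, ← mul_assoc]
    exact Nat.mul_div_cancel _ hp.pos
  have hs0 : 0 < s := by
    rcases Nat.eq_zero_or_pos s with h0 | h0
    · rw [h0] at hs; omega
    · exact h0
  have h2 : k + 1 ≤ p ^ k := (le_two_pow' k).trans (Nat.pow_le_pow_left hp.two_le k)
  calc k + 1 ≤ p ^ k * s := h2.trans (Nat.le_mul_of_pos_right _ hs0)
    _ = q / p := h1.symm
    _ ≤ rho f p * (q / p) := Nat.le_mul_of_pos_left _ (h p hp hpq)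

/-! ### the divisor -/

/-- `m_p` -/
def mm (n p : ℕ) : ℕ := n + (n - 1) / (p - 1)

/-- `k_p (m_p² - 1)` -/
def kk (n p : ℕ) : ℕ := Nat.log p n * (mm n p ^ 2 - 1)

lemma mm_pos {n : ℕ} (hn : 0 < n) (p : ℕ) : 0 < mm n p := lt_of_lt_of_le hn (Nat.le_add_right _ _)

lemma mm_le {n : ℕ} (hn : 0 < n) (p : ℕ) : mm n p ≤ 2 * n - 1 := by
  unfold mm
  have h1 : (n - 1) / (p - 1) ≤ n - 1 := Nat.div_le_self _ _
  omega

lemma kk_le {n : ℕ} (hn : 0 < n) (p : ℕ) : kk n p + (mm n p - 1) ≤ 4 * n ^ 3 := by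
  have h1 := mm_le hn p
  have h2 : Nat.log p n ≤ n := Nat.log_le_self p n
  have h3 : mm n p ^ 2 - 1 ≤ (2 * n - 1) ^ 2 - 1 := Nat.sub_le_sub_right (Nat.pow_le_pow_left h1 2) 1
  have h4 : kk n p ≤ n * ((2 * n - 1) ^ 2 - 1) := Nat.mul_le_mul h2 h3
  obtain ⟨m, rfl⟩ := Nat.exists_eq_succ_of_ne_zero hn.ne'
  rw [Nat.succ_eq_add_one] at *
  have e1 : 2 * (m + 1) - 1 = 2 * m + 1 := by omega
  rw [e1] at h1 h3 h4
  have e2 : (2 * m + 1) ^ 2 - 1 = 4 * m ^ 2 + 4 * m := by
    have : (2 * m + 1) ^ 2 = 4 * m ^ 2 + 4 * m + 1 := by ring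
    omega
  rw [e2] at h4
  have h5 : mm (m + 1) p - 1 ≤ 2 * m := by omega
  have h6 : 4 * (m + 1) ^ 3 = (m + 1) * (4 * m ^ 2 + 4 * m) + 2 * m + (4 * m ^ 2 + 6 * m + 4) := by
    ring
  omega

lemma large_prime {n p : ℕ} (hn : 0 < n) (hnp : n < p) : mm n p = n ∧ kk n p = 0 := by
  constructor
  · unfold mm
    rw [Nat.div_eq_of_lt (by omega)]; rfl
  · unfold kk
    rw [Nat.log_of_lt hnp]; simp

/-- the exponents of the divisor -/
noncomputable def ex (n D : ℕ) : ℕ →₀ ℕ :=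
  Finsupp.onFinset D.primeFactors (fun p => (D.factorization p - kk n p) / mm n p) (by
    intro p hp
    by_contra h
    rw [← Nat.support_factorization, Finsupp.notMem_support_iff] at h
    rw [h] at hp
    simp at hp)

/-- the divisor -/
noncomputable def QQ (n D : ℕ) : ℕ := (ex n D).prod (· ^ ·)

lemma fac_QQ (n D p : ℕ) : (QQ n D).factorization p = (D.factorization p - kk n p) / mm n p := by
  unfold QQ
  rw [Nat.prod_pow_factorization_eq_self]
  · rfl
  · intro q hq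
    have : q ∈ D.primeFactors := Finsupp.support_onFinset_subset hq
    exact Nat.prime_of_mem_primeFactors this

lemma QQ_pos (n D : ℕ) : 0 < QQ n D := by
  unfold QQ
  refine Nat.pos_of_ne_zero ?_
  rw [Finsupp.prod, Finset.prod_ne_zero_iff]
  intro q hq
  have : q ∈ D.primeFactors := Finsupp.support_onFinset_subset hq
  exact pow_ne_zero _ (Nat.prime_of_mem_primeFactors this).ne_zero

/-- the criterion holds -/
lemma crit {n D : ℕ} (hD : D ≠ 0) {p : ℕ} (hp : p.Prime) (hpQ : p ∣ QQ n D) :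
    p ^ (mm n p * (QQ n D).factorization p + kk n p) ∣ D := by
  have h0 : 0 < (QQ n D).factorization p := hp.factorization_pos_of_dvd (QQ_pos n D).ne' hpQ
  rw [hp.pow_dvd_iff_le_factorization hD]
  rw [fac_QQ] at h0 ⊢
  have h1 := Nat.mul_div_le (D.factorization p - kk n p) (mm n p)
  have h2 : 0 < D.factorization p - kk n p := by
    by_contra h
    rw [Nat.eq_zero_of_not_pos h] at h0
    simp at h0
  omega

lemma fac_le {n D : ℕ} (hn : 0 < n) (p : ℕ) :
    D.factorization p ≤ mm n p * (QQ n D).factorization p + (kk n p + (mm n p - 1)) := by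
  rw [fac_QQ]
  have h1 := Nat.lt_mul_div_succ (D.factorization p - kk n p) (mm_pos hn p)
  rw [mul_add, mul_one] at h1
  have := mm_pos hn p
  omega

/-- the radical -/
def rad (D : ℕ) : ℕ := ∏ p ∈ D.primeFactors, p

lemma rad_pos (D : ℕ) : 0 < rad D :=
  Finset.prod_pos fun p hp => (Nat.prime_of_mem_primeFactors hp).pos

lemma prime_dvd_rad {D p : ℕ} (hp : p ∈ D.primeFactors) : p ∣ rad D := Finset.dvd_prod_of_mem _ hp

/-- `D` divides `Q ^ (2 n - 1) * rad D ^ (4 n ^ 3)` -/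
lemma dvd_QQ {n D : ℕ} (hn : 0 < n) (hD : D ≠ 0) :
    D ∣ QQ n D ^ (2 * n - 1) * rad D ^ (4 * n ^ 3) := by
  have hne : QQ n D ^ (2 * n - 1) * rad D ^ (4 * n ^ 3) ≠ 0 :=
    mul_ne_zero (pow_ne_zero _ (QQ_pos n D).ne') (pow_ne_zero _ (rad_pos D).ne')
  rw [← Nat.factorization_le_iff_dvd hD hne]
  intro p
  by_cases hp : p ∈ D.primeFactors
  · have hpp := Nat.prime_of_mem_primeFactors hp
    have h1 := fac_le (D := D) hn p
    have h2 := mm_le hn p
    have h3 := kk_le hn p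
    rw [Nat.factorization_mul (pow_ne_zero _ (QQ_pos n D).ne') (pow_ne_zero _ (rad_pos D).ne'),
      Finsupp.add_apply, Nat.factorization_pow, Nat.factorization_pow, Finsupp.smul_apply,
      Finsupp.smul_apply, smul_eq_mul, smul_eq_mul]
    have h4 : 1 ≤ (rad D).factorization p :=
      hpp.factorization_pos_of_dvd (rad_pos D).ne' (prime_dvd_rad hp)
    have h5 : 4 * n ^ 3 ≤ 4 * n ^ 3 * (rad D).factorization p := Nat.le_mul_of_pos_right _ h4
    have h6 : mm n p * (QQ n D).factorization p ≤ (2 * n - 1) * (QQ n D).factorization p :=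
      Nat.mul_le_mul_right _ h2
    omega
  · rw [← Nat.support_factorization, Finsupp.notMem_support_iff] at hp
    rw [hp]; exact Nat.zero_le _

lemma rad_le_smooth {D y : ℕ} (h : ∀ p : ℕ, p.Prime → p ∣ D → p ≤ y) : rad D ≤ 4 ^ y := by
  have h1 : rad D ≤ primorial y := by
    unfold rad primorial
    refine Finset.prod_le_prod_of_subset_of_one_le' ?_ ?_
    · intro p hp
      have hpp := Nat.prime_of_mem_primeFactors hp
      rw [Finset.mem_filter, Finset.mem_range]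
      exact ⟨Nat.lt_succ_of_le (h p hpp (Nat.dvd_of_mem_primeFactors hp)), hpp⟩
    · intro p hp _
      exact (Finset.mem_filter.1 hp).2.one_lt.le
  exact h1.trans (primorial_le_four_pow y)

/-- if `D` is large in terms of its prime factors then `D ≤ Q ^ (2 n)` -/
lemma large_QQ {n D y : ℕ} (hn : 0 < n) (h : ∀ p : ℕ, p.Prime → p ∣ D → p ≤ y)
    (hD : 4 ^ (8 * n ^ 4 * y) ≤ D) : D ≤ QQ n D ^ (2 * n) := by
  have hD0 : D ≠ 0 := by
    have : 0 < 4 ^ (8 * n ^ 4 * y) := by positivity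
    omega
  have h1 : D ≤ QQ n D ^ (2 * n - 1) * 4 ^ (4 * n ^ 3 * y) := by
    refine (Nat.le_of_dvd ?_ (dvd_QQ hn hD0)).trans ?_
    · exact Nat.mul_pos (pow_pos (QQ_pos n D) _) (pow_pos (rad_pos D) _)
    · refine Nat.mul_le_mul_left _ ?_
      calc rad D ^ (4 * n ^ 3) ≤ (4 ^ y) ^ (4 * n ^ 3) := Nat.pow_le_pow_left (rad_le_smooth h) _
        _ = 4 ^ (4 * n ^ 3 * y) := by rw [← pow_mul]; congr 1; ring
  have h2 : D ^ (2 * n) ≤ (QQ n D ^ (2 * n)) ^ (2 * n - 1) * D := by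
    calc D ^ (2 * n) ≤ (QQ n D ^ (2 * n - 1) * 4 ^ (4 * n ^ 3 * y)) ^ (2 * n) :=
          Nat.pow_le_pow_left h1 _
      _ = (QQ n D ^ (2 * n)) ^ (2 * n - 1) * 4 ^ (8 * n ^ 4 * y) := by
          rw [mul_pow, ← pow_mul, ← pow_mul, ← pow_mul]
          congr 2 <;> ring
      _ ≤ _ := Nat.mul_le_mul_left _ hD
  obtain ⟨k, hk⟩ : ∃ k, 2 * n = k + 1 := ⟨2 * n - 1, by omega⟩
  have hk1 : 2 * n - 1 = k := by omega
  rw [hk1] at h2
  have hk0 : k ≠ 0 := by omega
  have h3 : D ^ k * D ≤ (QQ n D ^ (2 * n)) ^ k * D := by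
    calc D ^ k * D = D ^ (2 * n) := by rw [hk, pow_succ]
      _ ≤ _ := h2
  have h4 := Nat.le_of_mul_le_mul_right h3 (Nat.pos_of_ne_zero hD0)
  exact (Nat.pow_le_pow_iff_left hk0).1 h4

end Run7.h145.PD
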