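import Pool.Agent.Run7.h145.PD.A
import Pool.Agent.H474R2.PG.MertensF
import Pool.Agent.H474R2.GE.HomsUpper
import Pool.Agent.H474R2.GE.RhoHoms

/-!
# The size of the divisor for consecutive values of a polynomial
-/

set_option autoImplicit false

open Finset Polynomial NumberField
open Pool.Agent.H474R2.PG Pool.Agent.H474R2.GE

namespace Run7.h145.PD

lemma rho_le_self' (f : ℤ[X]) (p : ℕ) : rho f p ≤ p := by
  unfold rho
  refine (Finset.card_filter_le _ _).trans ?_
  simp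

/-- Mertens for the roots of an irreducible polynomial, both bounds (copy of the proof of
`Pool.Agent.H474R2.GE.mertens_rho`) -/
theorem mertens_rho' (f : ℤ[X]) (hf : Irreducible f) (hd : 0 < f.natDegree) :
    ∃ C : ℝ, 0 ≤ C ∧ ∀ w : ℝ, 3 ≤ w → |Sg (rho f) w - Real.log (Real.log w)| ≤ C := by
  obtain ⟨C1, hC1⟩ := mertens_lower f hf hd
  obtain ⟨K, iF, iN, B, hB⟩ := rho_le_homs f hf hd
  obtain ⟨C2, hC2⟩ := homs_upper K
  set S0 : ℝ := ∑ p ∈ PR B, (rho f p : ℝ) / (p : ℝ) with hS0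
  have hS00 : 0 ≤ S0 := Finset.sum_nonneg fun p _ => by positivity
  refine ⟨max C1 0 + max C2 0 + S0, by positivity, fun w hw => ?_⟩
  have h1 := hC1 w hw
  have h2 := hC2 w hw
  have h3 : Sg (rho f) w ≤ S0 + ∑ p ∈ PR w, (Nat.card (𝓞 K →+* ZMod p) : ℝ) / (p : ℝ) := by
    unfold Sg
    rw [← Finset.sum_filter_add_sum_filter_not (PR w) (fun p => p ≤ B)]
    apply add_le_add
    · rw [hS0]
      apply Finset.sum_le_sum_of_subset_of_nonneg
      · intro p hp
        rw [Finset.mem_filter, PR, Finset.mem_filter, Finset.mem_Icc] at hp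
        rw [PR, Finset.mem_filter, Finset.mem_Icc, Nat.floor_natCast]
        exact ⟨⟨hp.1.1.1, hp.2⟩, hp.1.2⟩
      · intro p _ _
        positivity
    · calc ∑ p ∈ (PR w).filter (fun p => ¬ p ≤ B), (rho f p : ℝ) / (p : ℝ)
          ≤ ∑ p ∈ (PR w).filter (fun p => ¬ p ≤ B),
              (Nat.card (𝓞 K →+* ZMod p) : ℝ) / (p : ℝ) := by
            apply Finset.sum_le_sum
            intro p hp
            rw [Finset.mem_filter] at hp
            have hpp : p.Prime := (Finset.mem_filter.1 hp.1).2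
            have h3 : (rho f p : ℝ) ≤ (Nat.card (𝓞 K →+* ZMod p) : ℝ) := by
              exact_mod_cast hB p hpp (not_le.1 hp.2)
            exact div_le_div_of_nonneg_right h3 (by positivity)
        _ ≤ ∑ p ∈ PR w, (Nat.card (𝓞 K →+* ZMod p) : ℝ) / (p : ℝ) := by
            apply Finset.sum_le_sum_of_subset_of_nonneg (Finset.filter_subset _ _)
            intro p _ _
            positivity
  have h4 := le_max_left C1 0
  have h5 := le_max_left C2 0
  have h6 := le_max_right C1 0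
  have h7 := le_max_right C2 0
  rw [abs_le]
  constructor <;> linarith

/-- the primes in `(z ^ κ, z]` -/
noncomputable def W (κ z : ℝ) : Finset ℕ := (PR z).filter (fun p => z ^ κ < (p : ℝ))

lemma window (f : ℤ[X]) (hf : Irreducible f) (hd : 0 < f.natDegree) :
    ∃ κ : ℝ, 0 < κ ∧ κ ≤ 1 ∧ ∃ z0 : ℝ, 3 ≤ z0 ∧ ∀ z : ℝ, z0 ≤ z →
      1 ≤ ∑ p ∈ W κ z, (rho f p : ℝ) / (p : ℝ) := by
  obtain ⟨C, hC0, hC⟩ := mertens_rho' f hf hd
  set κ : ℝ := Real.exp (-(2 * C + 1)) with hκ
  have hκ0 : 0 < κ := Real.exp_pos _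
  have hκ1 : κ ≤ 1 := by rw [hκ, Real.exp_le_one_iff]; linarith
  refine ⟨κ, hκ0, hκ1, (3 : ℝ) ^ (1 / κ), ?_, fun z hz => ?_⟩
  · calc (3 : ℝ) = 3 ^ (1 : ℝ) := (Real.rpow_one 3).symm
      _ ≤ _ := Real.rpow_le_rpow_of_exponent_le (by norm_num) (by
        rw [le_div_iff₀ hκ0]; linarith)
  · have h3z : (3 : ℝ) ≤ z := le_trans (by
      calc (3 : ℝ) = 3 ^ (1 : ℝ) := (Real.rpow_one 3).symm
        _ ≤ (3 : ℝ) ^ (1 / κ) := Real.rpow_le_rpow_of_exponent_le (by norm_num) (by
          rw [le_div_iff₀ hκ0]; linarith)) hz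
    have hz0 : 0 < z := by linarith
    have hy3 : (3 : ℝ) ≤ z ^ κ := by
      calc (3 : ℝ) = ((3 : ℝ) ^ (1 / κ)) ^ κ := by
            rw [← Real.rpow_mul (by norm_num), one_div_mul_cancel hκ0.ne', Real.rpow_one]
        _ ≤ z ^ κ := Real.rpow_le_rpow (by positivity) hz hκ0.le
    have hyz : z ^ κ ≤ z := by
      calc z ^ κ ≤ z ^ (1 : ℝ) := Real.rpow_le_rpow_of_exponent_le (by linarith) hκ1
        _ = z := Real.rpow_one z
    have h1 := (abs_le.1 (hC z h3z)).1
    have h2 := (abs_le.1 (hC (z ^ κ) hy3)).2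
    have hlz : 0 < Real.log z := Real.log_pos (by linarith)
    have h3 : Real.log (Real.log (z ^ κ)) = -(2 * C + 1) + Real.log (Real.log z) := by
      rw [Real.log_rpow hz0, Real.log_mul hκ0.ne' hlz.ne', hκ, Real.log_exp]
    have h4 : Sg (rho f) z = Sg (rho f) (z ^ κ) + ∑ p ∈ W κ z, (rho f p : ℝ) / (p : ℝ) := by
      unfold Sg W
      rw [← Finset.sum_filter_add_sum_filter_not (PR z) (fun p => (p : ℝ) ≤ z ^ κ)]
      congr 1
      · congr 1
        ext p
        simp only [PR, Finset.mem_filter, Finset.mem_Icc]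
        constructor
        · rintro ⟨⟨⟨h5, h6⟩, h7⟩, h8⟩
          exact ⟨⟨h5, Nat.le_floor h8⟩, h7⟩
        · rintro ⟨⟨h5, h6⟩, h7⟩
          have h8 : (p : ℝ) ≤ z ^ κ := (Nat.le_floor_iff (by linarith)).1 h6
          exact ⟨⟨⟨h5, Nat.le_floor (h8.trans hyz)⟩, h7⟩, h8⟩
      · congr 1
        ext p
        simp only [Finset.mem_filter, not_le]
    linarith

/-- the lower bound for the divisor -/
lemma log_QQ_ge (g : ℤ[X]) (hg : Irreducible g) (hd : 0 < g.natDegree) (n : ℕ) (hn : 0 < n) :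
    ∃ δ : ℝ, 0 < δ ∧ ∃ R0 : ℕ, ∀ R : ℕ, R0 ≤ R → ∀ (a : ℤ) (D : ℕ), D ≠ 0 →
      (∏ i ∈ range R, (g.eval (a + i + 1)).natAbs) ∣ D →
      δ * (R * Real.log R) ≤ Real.log (QQ n D) := by
  obtain ⟨κ, hκ0, hκ1, z0, hz03, hz0⟩ := window g hg hd
  have hnr : (0 : ℝ) < n := by exact_mod_cast hn
  have hn1 : (1 : ℝ) ≤ n := by exact_mod_cast hn
  -- large `R`
  have hev : ∀ᶠ R : ℕ in Filter.atTop, z0 ≤ (R : ℝ) ^ (1 / 4 : ℝ) ∧
      (n : ℝ) ≤ ((R : ℝ) ^ (1 / 4 : ℝ)) ^ κ ∧ 16 * (n : ℝ) ^ 2 ≤ R := by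
    have t1 : Filter.Tendsto (fun R : ℕ => (R : ℝ) ^ (1 / 4 : ℝ)) Filter.atTop Filter.atTop :=
      (tendsto_rpow_atTop (by norm_num)).comp tendsto_natCast_atTop_atTop
    have t2 : Filter.Tendsto (fun R : ℕ => ((R : ℝ) ^ (1 / 4 : ℝ)) ^ κ) Filter.atTop
      Filter.atTop := (tendsto_rpow_atTop hκ0).comp t1
    exact (t1.eventually_ge_atTop z0).and ((t2.eventually_ge_atTop _).and
      ((tendsto_natCast_atTop_atTop (R := ℝ)).eventually_ge_atTop _))
  obtain ⟨R0, hR0⟩ := Filter.eventually_atTop.1 hev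
  refine ⟨κ / (8 * n), by positivity, max R0 1, fun R hR a D hD hdvd => ?_⟩
  obtain ⟨h1, h2, h3⟩ := hR0 R (le_trans (le_max_left _ _) hR)
  have hR1 : 1 ≤ R := le_trans (le_max_right _ _) hR
  have hRr : (1 : ℝ) ≤ R := by exact_mod_cast hR1
  have hR0' : (0 : ℝ) < R := by linarith
  set z : ℝ := (R : ℝ) ^ (1 / 4 : ℝ) with hz
  have hz3 : 3 ≤ z := hz03.trans h1
  have hzpos : 0 < z := by linarith
  have hmain := hz0 z h1
  have hz2 : z ^ 2 = Real.sqrt R := by
    rw [hz, Real.sqrt_eq_rpow, ← Real.rpow_natCast, ← Real.rpow_mul hR0'.le]; norm_num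
  -- the primes of the window
  have hW : ∀ p ∈ W κ z, p.Prime ∧ (p : ℝ) ≤ z ∧ z ^ κ < p := by
    intro p hp
    unfold W PR at hp
    rw [Finset.mem_filter, Finset.mem_filter, Finset.mem_Icc] at hp
    exact ⟨hp.1.2, (Nat.le_floor_iff hzpos.le).1 hp.1.1.2, hp.2⟩
  have hcardW : ((W κ z).card : ℝ) ≤ z := by
    have : (W κ z).card ≤ ⌊z⌋₊ := by
      refine (Finset.card_filter_le _ _).trans ((Finset.card_filter_le _ _).trans ?_)
      simp
    calc ((W κ z).card : ℝ) ≤ (⌊z⌋₊ : ℝ) := by exact_mod_cast this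
      _ ≤ z := Nat.floor_le hzpos.le
  -- exponents
  have hfac : ∀ p ∈ W κ z, rho g p * (R / p) / n ≤ (QQ n D).factorization p := by
    intro p hp
    obtain ⟨hpp, _, h5⟩ := hW p hp
    have hnp : n < p := by
      have : (n : ℝ) < p := lt_of_le_of_lt h2 h5
      exact_mod_cast this
    obtain ⟨e1, e2⟩ := large_prime hn hnp
    rw [fac_QQ, e1, e2, Nat.sub_zero]
    refine Nat.div_le_div_right ?_
    rw [← hpp.pow_dvd_iff_le_factorization hD]
    exact (pow_dvd_prod g p hpp.pos a R).trans hdvd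
  have hlogQ : ∑ p ∈ W κ z, ((QQ n D).factorization p : ℝ) * Real.log p ≤ Real.log (QQ n D) := by
    rw [Real.log_nat_eq_sum_factorization, Finsupp.sum]
    rw [← Finset.sum_filter_add_sum_filter_not (W κ z) (fun p => (QQ n D).factorization p ≠ 0)]
    have e0 : ∑ p ∈ (W κ z).filter (fun p => ¬ (QQ n D).factorization p ≠ 0),
        ((QQ n D).factorization p : ℝ) * Real.log p = 0 := by
      refine Finset.sum_eq_zero fun p hp => ?_
      have := (Finset.mem_filter.1 hp).2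
      rw [not_not] at this
      rw [this]; simp
    rw [e0, add_zero]
    refine Finset.sum_le_sum_of_subset_of_nonneg ?_ ?_
    · intro p hp
      rw [Finsupp.mem_support_iff]
      exact (Finset.mem_filter.1 hp).2
    · intro p _ _
      exact mul_nonneg (Nat.cast_nonneg _) (Real.log_natCast_nonneg p)
  have hlogz : 0 ≤ κ / 4 * Real.log R := by
    have := Real.log_nonneg hRr
    positivity
  -- each term
  have hterm : ∀ p ∈ W κ z, (κ / 4 * Real.log R) * ((R : ℝ) / n * ((rho g p : ℝ) / p) - (z + 1)) ≤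
      ((QQ n D).factorization p : ℝ) * Real.log p := by
    intro p hp
    obtain ⟨hpp, h4, h5⟩ := hW p hp
    have hp0 : (0 : ℝ) < p := by exact_mod_cast hpp.pos
    have h6 : κ / 4 * Real.log R ≤ Real.log p := by
      have h7 : Real.log (z ^ κ) ≤ Real.log p := Real.log_le_log (by positivity) h5.le
      rw [Real.log_rpow hzpos, hz, Real.log_rpow hR0'] at h7
      linarith
    have h8 : (R : ℝ) / n * ((rho g p : ℝ) / p) - (z + 1) ≤ ((QQ n D).factorization p : ℝ) := by
      have h9 : ((rho g p * (R / p) / n : ℕ) : ℝ) ≤ ((QQ n D).factorization p : ℝ) := by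
        exact_mod_cast hfac p hp
      refine le_trans ?_ h9
      have h10 : ((rho g p * (R / p) : ℕ) : ℝ) / n - 1 ≤ ((rho g p * (R / p) / n : ℕ) : ℝ) := by
        have := Nat.lt_div_mul_add (a := rho g p * (R / p)) hn
        have h11 : ((rho g p * (R / p) : ℕ) : ℝ) < ((rho g p * (R / p) / n : ℕ) : ℝ) * n + n := by
          exact_mod_cast this
        rw [sub_le_iff_le_add, div_le_iff₀ hnr]
        linarith
      refine le_trans ?_ h10
      have h12 : (R : ℝ) / p - 1 ≤ ((R / p : ℕ) : ℝ) := by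
        have := Nat.lt_div_mul_add (a := R) hpp.pos
        have h11 : (R : ℝ) < ((R / p : ℕ) : ℝ) * p + p := by exact_mod_cast this
        rw [sub_le_iff_le_add, div_le_iff₀ hp0]
        linarith
      have h13 : (rho g p : ℝ) ≤ z := le_trans (by exact_mod_cast rho_le_self' g p) h4
      have h14 : (0 : ℝ) ≤ rho g p := Nat.cast_nonneg _
      have h15 : (rho g p : ℝ) * ((R : ℝ) / p - 1) / n ≤ ((rho g p * (R / p) : ℕ) : ℝ) / n := by
        refine div_le_div_of_nonneg_right ?_ hnr.le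
        push_cast
        exact mul_le_mul_of_nonneg_left h12 h14
      have h16 : (R : ℝ) / n * ((rho g p : ℝ) / p) - z ≤ (rho g p : ℝ) * ((R : ℝ) / p - 1) / n := by
        have e : (rho g p : ℝ) * ((R : ℝ) / p - 1) / n =
            (R : ℝ) / n * ((rho g p : ℝ) / p) - (rho g p : ℝ) / n := by
          field_simp
        rw [e]
        have : (rho g p : ℝ) / n ≤ z := (div_le_self h14 hn1).trans h13
        linarith
      linarith
    rcases le_total 0 ((R : ℝ) / n * ((rho g p : ℝ) / p) - (z + 1)) with h17 | h17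
    · calc (κ / 4 * Real.log R) * ((R : ℝ) / n * ((rho g p : ℝ) / p) - (z + 1))
          ≤ Real.log p * ((R : ℝ) / n * ((rho g p : ℝ) / p) - (z + 1)) :=
            mul_le_mul_of_nonneg_right h6 h17
        _ ≤ Real.log p * ((QQ n D).factorization p : ℝ) :=
            mul_le_mul_of_nonneg_left h8 (Real.log_natCast_nonneg p)
        _ = _ := mul_comm _ _
    · refine le_trans (mul_nonpos_of_nonneg_of_nonpos hlogz h17) ?_
      exact mul_nonneg (Nat.cast_nonneg _) (Real.log_natCast_nonneg p)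
  have hsum := (Finset.sum_le_sum hterm).trans hlogQ
  rw [← Finset.mul_sum, Finset.sum_sub_distrib, ← Finset.mul_sum, Finset.sum_const,
    nsmul_eq_mul] at hsum
  have h20 : (R : ℝ) / (2 * n) ≤ (R : ℝ) / n * ∑ p ∈ W κ z, (rho g p : ℝ) / p -
      ((W κ z).card : ℝ) * (z + 1) := by
    have h21 : (R : ℝ) / n ≤ (R : ℝ) / n * ∑ p ∈ W κ z, (rho g p : ℝ) / p :=
      le_mul_of_one_le_right (by positivity) hmain
    have h22 : ((W κ z).card : ℝ) * (z + 1) ≤ z * (z + 1) :=
      mul_le_mul_of_nonneg_right hcardW (by linarith)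
    have h23 : z * (z + 1) ≤ 2 * Real.sqrt R := by rw [← hz2]; nlinarith
    have h24 : 2 * Real.sqrt R ≤ (R : ℝ) / (2 * n) := by
      have h25 : 4 * (n : ℝ) ≤ Real.sqrt R := by
        rw [Real.le_sqrt' (by positivity)]; nlinarith
      rw [le_div_iff₀ (by positivity)]
      have h26 : Real.sqrt R * Real.sqrt R = R := Real.mul_self_sqrt hR0'.le
      have h27 : 0 ≤ Real.sqrt R := Real.sqrt_nonneg _
      nlinarith
    have h28 : (R : ℝ) / n = (R : ℝ) / (2 * n) + (R : ℝ) / (2 * n) := by field_simp; ring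
    linarith
  calc κ / (8 * n) * (R * Real.log R) = (κ / 4 * Real.log R) * ((R : ℝ) / (2 * n)) := by
        field_simp; ring
    _ ≤ _ := mul_le_mul_of_nonneg_left h20 hlogz
    _ ≤ Real.log (QQ n D) := hsum

end Run7.h145.PD
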