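import Pool.Agent.Run7.h145.PD.B

/-!
# Consecutive values of a polynomial: the comparison with the product
-/

set_option autoImplicit false

open Finset Polynomial
open Pool.Agent.H474R2.PG (rho)

namespace Run7.h145.PD

/-- a nonconstant polynomial has a nonconstant irreducible factor -/
lemma exists_irred (f : ℤ[X]) (hd : 0 < f.natDegree) :
    ∃ g : ℤ[X], Irreducible g ∧ 0 < g.natDegree ∧ g ∣ f := by
  have hf0 : f ≠ 0 := by rintro rfl; simp at hd
  obtain ⟨s, hs, hsf⟩ := WfDvdMonoid.exists_factors f hf0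
  by_contra hcon
  push Not at hcon
  have h1 : ∀ g ∈ s, g.natDegree = 0 := by
    intro g hg
    by_contra h0
    exact hcon g (hs g hg) (Nat.pos_of_ne_zero h0) ((Multiset.dvd_prod hg).trans hsf.dvd)
  have h2 : s.prod.natDegree = 0 := by
    have h3 : ∀ t : Multiset ℤ[X], (∀ g ∈ t, g.natDegree = 0) → t.prod.natDegree = 0 := by
      intro t
      induction t using Multiset.induction_on with
      | empty => intro _; simp
      | cons a t ih =>
        intro h
        rw [Multiset.prod_cons]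
        have h4 := ih fun g hg => h g (Multiset.mem_cons_of_mem hg)
        have h5 := h a (Multiset.mem_cons_self a t)
        have := Polynomial.natDegree_mul_le (p := a) (q := t.prod)
        omega
    exact h3 s h1
  have h3 : f ∣ s.prod := hsf.symm.dvd
  have h4 : s.prod ≠ 0 := hsf.ne_zero_iff.2 hf0
  have := Polynomial.natDegree_le_of_dvd h3 h4
  omega

/-- bound for the values -/
lemma eval_bound (f : ℤ[X]) : ∃ S : ℕ, ∀ (x : ℤ) (X : ℕ), 1 ≤ X → |x| ≤ X →
    (f.eval x).natAbs ≤ S * X ^ f.natDegree := by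
  refine ⟨∑ i ∈ range (f.natDegree + 1), (f.coeff i).natAbs, fun x X hX hx => ?_⟩
  rw [Polynomial.eval_eq_sum_range, Finset.sum_mul]
  refine (Int.natAbs_sum_le _ _).trans (Finset.sum_le_sum fun i hi => ?_)
  rw [Int.natAbs_mul, Int.natAbs_pow]
  refine Nat.mul_le_mul_left _ ?_
  have h1 : x.natAbs ≤ X := by
    rw [← Int.natCast_natAbs] at hx
    exact_mod_cast hx
  have h2 : i ≤ f.natDegree := Nat.lt_succ_iff.1 (Finset.mem_range.1 hi)
  exact (Nat.pow_le_pow_left h1 i).trans (Nat.pow_le_pow_right hX h2)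

/-- the product of the values is at most a fixed power of the divisor -/
theorem values_bound (f : ℤ[X]) (hd : 0 < f.natDegree) (n : ℕ) (hn : 0 < n) (c : ℕ) :
    ∃ M R0 : ℕ, ∀ R : ℕ, R0 ≤ R → ∀ a : ℤ, |a| ≤ (R : ℤ) ^ c → ∀ D : ℕ, D ≠ 0 →
      (∏ i ∈ range R, (f.eval (a + i + 1)).natAbs) ∣ D →
      ∏ i ∈ range R, (f.eval (a + i + 1)).natAbs ≤ QQ n D ^ M := by
  obtain ⟨g, hg, hgd, h, rfl⟩ := exists_irred f hd
  obtain ⟨δ, hδ, R1, hR1⟩ := log_QQ_ge g hg hgd n hn
  obtain ⟨S, hS⟩ := eval_bound (g * h)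
  set k := (g * h).natDegree with hk
  set B : ℕ := (c + 2) * k + 1 with hB
  obtain ⟨M, hM⟩ := exists_nat_ge ((B : ℝ) / δ)
  refine ⟨M, max R1 (max S 2), fun R hR a ha D hD hdvd => ?_⟩
  have hRS : S ≤ R := le_trans (le_trans (le_max_left _ _) (le_max_right _ _)) hR
  have hR2 : 2 ≤ R := le_trans (le_trans (le_max_right _ _) (le_max_right _ _)) hR
  have hRR : R1 ≤ R := le_trans (le_max_left _ _) hR
  have hgdvd : (∏ i ∈ range R, (g.eval (a + i + 1)).natAbs) ∣ D := by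
    refine (Finset.prod_dvd_prod_of_dvd _ _ fun i _ => ?_).trans hdvd
    rw [Polynomial.eval_mul, Int.natAbs_mul]
    exact Dvd.intro _ rfl
  have h1 := hR1 R hRR a D hD hgdvd
  -- the upper bound
  have h2 : ∀ i ∈ range R, ((g * h).eval (a + (i : ℕ) + 1)).natAbs ≤ R ^ B := by
    intro i hi
    have hiR : i < R := Finset.mem_range.1 hi
    have hX : |a + (i : ℤ) + 1| ≤ ((R ^ (c + 2) : ℕ) : ℤ) := by
      have e1 : |a + (i : ℤ) + 1| ≤ (R : ℤ) ^ c + R := by
        have t1 : |a + (i : ℤ) + 1| ≤ |a| + |(i : ℤ) + 1| := by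
          rw [add_assoc]; exact abs_add_le _ _
        have t2 : |(i : ℤ) + 1| ≤ R := by
          rw [abs_of_nonneg (by positivity)]
          omega
        linarith
      have e2 : (R : ℤ) ^ c + R ≤ (R : ℤ) ^ (c + 2) := by
        have hR' : (2 : ℤ) ≤ R := by exact_mod_cast hR2
        have hp1 : (1 : ℤ) ≤ (R : ℤ) ^ c := one_le_pow₀ (by linarith)
        have e3 : (R : ℤ) ^ (c + 2) = (R : ℤ) ^ c * ((R : ℤ) * R) := by ring
        rw [e3]
        nlinarith [mul_le_mul hp1 (le_refl (R : ℤ)) (by linarith) (by linarith),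
          mul_nonneg (by linarith : (0 : ℤ) ≤ (R : ℤ) ^ c) (by linarith : (0 : ℤ) ≤ (R : ℤ) - 2)]
      calc |a + (i : ℤ) + 1| ≤ (R : ℤ) ^ (c + 2) := e1.trans e2
        _ = ((R ^ (c + 2) : ℕ) : ℤ) := by push_cast; rfl
    refine (hS _ (R ^ (c + 2)) (Nat.one_le_pow _ _ (by omega)) hX).trans ?_
    rw [← pow_mul, hB, pow_succ, mul_comm]
    exact Nat.mul_le_mul_left _ hRS
  have h3 : ∏ i ∈ range R, ((g * h).eval (a + (i : ℕ) + 1)).natAbs ≤ (R ^ B) ^ R := by
    calc _ ≤ ∏ _i ∈ range R, R ^ B := Finset.prod_le_prod' h2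
      _ = _ := by rw [Finset.prod_const, Finset.card_range]
  refine h3.trans ?_
  have hQ : (0 : ℝ) < QQ n D := by exact_mod_cast QQ_pos n D
  have hRr : (0 : ℝ) < R := by exact_mod_cast (by omega : 0 < R)
  have hlogR : 0 ≤ (R : ℝ) * Real.log R := mul_nonneg hRr.le (Real.log_natCast_nonneg R)
  have h4 : Real.log (((R ^ B) ^ R : ℕ) : ℝ) ≤ Real.log ((QQ n D ^ M : ℕ) : ℝ) := by
    push_cast
    rw [Real.log_pow, Real.log_pow, Real.log_pow]
    have h5 : (B : ℝ) ≤ M * δ := by rwa [div_le_iff₀ hδ] at hM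
    calc (R : ℝ) * ((B : ℝ) * Real.log R) = (B : ℝ) * (R * Real.log R) := by ring
      _ ≤ (M * δ) * (R * Real.log R) := mul_le_mul_of_nonneg_right h5 hlogR
      _ = M * (δ * (R * Real.log R)) := by ring
      _ ≤ M * Real.log (QQ n D) := mul_le_mul_of_nonneg_left h1 (Nat.cast_nonneg _)
  have h5 : (((R ^ B) ^ R : ℕ) : ℝ) ≤ ((QQ n D ^ M : ℕ) : ℝ) := by
    have t1 : (0 : ℝ) < (((R ^ B) ^ R : ℕ) : ℝ) := by
      exact_mod_cast pow_pos (pow_pos (by omega : 0 < R) _) _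
    have t2 : (0 : ℝ) < ((QQ n D ^ M : ℕ) : ℝ) := by exact_mod_cast pow_pos (QQ_pos n D) _
    exact (Real.log_le_log_iff t1 t2).1 h4
  exact_mod_cast h5

end Run7.h145.PD
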